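import Mathlib

set_option autoImplicit false

open Set Filter Topology TopologicalSpace Function

namespace Pool.Agent.H.MP_f1805c_gt

def Sig (I : Type) : AddSubgroup (I → ZMod 2) where
  carrier := {x | (support x).Countable}
  add_mem' hx hy := (hx.out.union hy.out).mono (support_add _ _)
  zero_mem' := by simp
  neg_mem' hx := by simpa using hx

variable {I : Type}

lemma bdd {A : Set (Sig I)} (hA : A.Countable) : IsCompact (closure A) := by
  have hS : (⋃ a ∈ A, support a.1).Countable := hA.biUnion fun a _ => a.2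
  have hc : IsClosed {x : I → ZMod 2 | ∀ i ∉ ⋃ a ∈ A, support a.1, x i = 0} := by
    simp only [ofPred_forall]
    exact isClosed_iInter fun i => isClosed_iInter fun _ =>
      isClosed_eq (continuous_apply i) continuous_const
  refine (IsInducing.subtypeVal.isCompact_preimage' hc.isCompact fun x hx =>
    ⟨⟨x, hS.mono (support_subset_iff'.2 hx)⟩, rfl⟩).of_isClosed_subset
      isClosed_closure (closure_minimal (fun a ha i hi => ?_) (hc.preimage continuous_subtype_val))
  by_contra h
  exact hi (mem_biUnion ha h)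

lemma cluster (u : ℕ → Sig I) : ∃ x, MapClusterPt x atTop u := by
  obtain ⟨x, -, hx⟩ := (bdd (countable_range u)).exists_mapClusterPt (f := atTop) (u := u)
    (tendsto_principal.2 (Eventually.of_forall fun n => subset_closure ⟨n, rfl⟩))
  exact ⟨x, hx⟩

lemma box {x : Sig I} {U : Set (Sig I)} (hU : U ∈ 𝓝 x) :
    ∃ F : Finset I, ∀ y : Sig I, (∀ i ∈ F, y.1 i = x.1 i) → y ∈ U := by
  obtain ⟨V, hV, he⟩ := (mem_nhds_induced _ _ _).1 hU
  rw [nhds_pi, mem_pi'] at hV
  obtain ⟨F, t, ht, hF⟩ := hV
  exact ⟨F, fun y hy => he (hF fun i hi => hy i hi ▸ mem_of_mem_nhds (ht i))⟩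

lemma tend {α : Type} {l : Filter α} {u : α → Sig I} {x : Sig I} :
    Tendsto u l (𝓝 x) ↔ ∀ i, ∀ᶠ a in l, (u a).1 i = x.1 i := by
  simp [tendsto_subtype_rng, tendsto_pi_nhds]

instance [Nonempty I] : FrechetUrysohnSpace (Sig I) := ⟨fun A x hx => by
  classical
  choose e he using fun y : Sig I =>
    (y.2.insert (Classical.arbitrary I)).exists_eq_range (insert_nonempty _ _)
  have : ∀ F : Finset I, ∃ a ∈ A, ∀ i ∈ F, a.1 i = x.1 i := fun F => by
    obtain ⟨a, h1, h2⟩ := mem_closure_iff_nhds.1 hx _
      ((eventually_all_finset F).2 fun i _ => tend.1 tendsto_id i)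
    exact ⟨a, h2, h1⟩
  choose a ha ha' using this
  let b : ℕ → Finset (Sig I) → Sig I := fun n T =>
    a (T.biUnion fun y => (Finset.range n).image (e y))
  let T : ℕ → Finset (Sig I) := fun n => Nat.rec {x} (fun n T => insert (b n T) T) n
  have hm : Monotone T := monotone_nat_of_le_succ fun n => Finset.subset_insert _ _
  refine ⟨fun n => b n (T n), fun n => ha _, tend.2 fun i => ?_⟩
  by_cases h : ∃ m, ∃ y ∈ T m, y.1 i ≠ 0
  · obtain ⟨m, y, hy, hi⟩ := h
    obtain ⟨k, rfl⟩ : i ∈ range (e y) := he y ▸ mem_insert_of_mem _ hi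
    filter_upwards [eventually_ge_atTop m, eventually_gt_atTop k] with n h1 h2
    exact ha' _ _ (Finset.mem_biUnion.2 ⟨y, hm h1 hy,
      Finset.mem_image_of_mem _ (Finset.mem_range.2 h2)⟩)
  · push Not at h
    exact Eventually.of_forall fun n => (h (n + 1) _ (Finset.mem_insert_self _ _)).trans
      (h 0 x (Finset.mem_singleton_self x)).symm⟩

lemma rev [Nonempty I] (f : Sig I ≃ Sig I) (hf : Continuous f) : Continuous f.symm := by
  refine SeqContinuous.continuous fun y p hy => ?_
  refine (bdd (countable_range (f.symm ∘ y))).tendsto_nhds_of_unique_mapClusterPt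
    (Eventually.of_forall fun n => subset_closure ⟨n, rfl⟩) fun x _ hx => ?_
  rw [Equiv.eq_symm_apply]
  refine eq_of_nhds_neBot ((hx.continuousAt_comp hf.continuousAt).clusterPt.mono ?_)
  exact hy.congr fun n => by simp

open Classical in
/-- extension by zero -/
noncomputable def ext0 {S : Set I} (hS : S.Countable) (z : I → ZMod 2) : Sig I :=
  ⟨S.indicator z, hS.mono support_indicator_subset⟩

lemma dep (f : Sig I → ℝ) (hf : Continuous f) :
    ∃ S : Set I, S.Countable ∧ ∀ x y : Sig I, (∀ i ∈ S, x.1 i = y.1 i) → f x = f y := by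
  classical
  have key : ∀ ε : ℝ, 0 < ε →
      {i | ∃ x c, ε ≤ |f (x + ext0 (countable_singleton i) c) - f x|}.Finite := by
    intro ε hε
    by_contra h
    let e := Set.Infinite.natEmbedding _ h
    choose x c hx using fun n => (e n).2
    obtain ⟨p, hp⟩ := cluster x
    obtain ⟨U, hU, hU'⟩ := mapClusterPt_iff_ultrafilter.1 hp
    have h0 : Tendsto (fun n => ext0 (countable_singleton (e n).1) (c n)) atTop (𝓝 0) := by
      refine tend.2 fun i => ?_
      have := (Subtype.val_injective.comp e.injective).tendsto_cofinite.eventually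
        (finite_singleton i).compl_mem_cofinite
      rw [Nat.cofinite_eq_atTop] at this
      filter_upwards [this] with n hn
      exact indicator_of_notMem (s := {(e n).1}) (fun h => hn (Eq.symm h)) (c n)
    have h1 := (((hf.tendsto _).comp (hU'.add (h0.mono_left hU))).sub ((hf.tendsto _).comp hU')).abs
    rw [add_zero, sub_self, abs_zero] at h1
    exact absurd (ge_of_tendsto' h1 hx) (not_le.2 hε)
  refine ⟨_, countable_iUnion fun k : ℕ => (key _ (Nat.one_div_pos_of_nat (n := k))).countable,
    fun x y h => ?_⟩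
  have h1 : ∀ F : Finset I, f (x + ext0 F.countable_toSet (y.1 - x.1)) = f x := by
    intro F
    induction F using Finset.induction_on with
    | empty => congr 1; ext i; simp [ext0]
    | insert i F hi ih =>
      rw [← ih]
      by_cases h2 : x.1 i = y.1 i
      · congr 2
        ext j
        by_cases hj : j = i <;> simp [ext0, indicator, hj, h2]
      · have : ext0 (insert i F).countable_toSet (y.1 - x.1) = ext0 F.countable_toSet (y.1 - x.1) +
            ext0 (countable_singleton i) (y.1 - x.1) := by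
          ext j
          by_cases hj : j = i <;> simp [ext0, indicator, hj, hi]
        rw [this, ← add_assoc]
        by_contra h3
        obtain ⟨k, hk⟩ := exists_nat_one_div_lt (abs_pos.2 (sub_ne_zero.2 h3))
        exact h2 (h i (mem_iUnion.2 ⟨k, _, _, hk.le⟩))
  have h2 : Tendsto (fun F : Finset I => x + ext0 F.countable_toSet (y.1 - x.1)) atTop (𝓝 y) := by
    refine tend.2 fun i => ?_
    filter_upwards [eventually_ge_atTop {i}] with F hF
    simp [ext0, hF (Finset.mem_singleton_self i)]
  exact tendsto_nhds_unique tendsto_const_nhds (((hf.tendsto _).comp h2).congr h1)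

lemma exists_zero [Uncountable I] (x : Sig I) : ∃ i, x.1 i = 0 := by
  by_contra h
  push Not at h
  exact not_countable_univ (x.2.mono fun i _ => h i)

open Classical in
theorem weak [Uncountable I] : ∃ (K : Type) (_ : TopologicalSpace K) (_ : CompactSpace K)
    (_ : T2Space K) (e : Sig I × ℤ → K), IsDenseEmbedding e ∧
      ∀ s : Set K, IsGδ s → s.Nonempty → ∃ g, e g ∈ s := by
  let K : Set (ℤ × I → ZMod 2) := {z | ∀ p q, p.1 ≠ q.1 → z p * z q = 0}
  have hK : IsClosed K := by
    simp only [K, ofPred_forall]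
    exact isClosed_iInter fun p => isClosed_iInter fun q => isClosed_iInter fun _ =>
      isClosed_eq (by fun_prop) continuous_const
  let e : Sig I × ℤ → K := fun g => ⟨fun p => if p.1 = g.2 then g.1.1 p.2 + 1 else 0,
    fun p q h => by grind⟩
  have hG : ∀ s : Set K, IsGδ s → s.Nonempty → ∃ g, e g ∈ s := by
    rintro _ ⟨T, hT, hc, rfl⟩ ⟨z, hz⟩
    have : ∀ t ∈ T, ∃ F : Finset (ℤ × I), ∀ y : K, (∀ i ∈ F, y.1 i = z.1 i) → y ∈ t := by
      intro t ht
      obtain ⟨V, hV, he⟩ := (mem_nhds_induced _ _ _).1 ((hT t ht).mem_nhds (hz t ht))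
      rw [nhds_pi, mem_pi'] at hV
      obtain ⟨F, t, ht, hF⟩ := hV
      exact ⟨F, fun y hy => he (hF fun i hi => hy i hi ▸ mem_of_mem_nhds (ht i))⟩
    choose! F hF using this
    obtain ⟨n, hn⟩ : ∃ n, ∀ p : ℤ × I, p.1 ≠ n → z.1 p = 0 := by
      by_cases h : ∃ q, z.1 q ≠ 0
      · obtain ⟨q, hq⟩ := h
        exact ⟨q.1, fun p hp => (mul_eq_zero.1 (z.2 p q hp)).resolve_right hq⟩
      · push Not at h
        exact ⟨0, fun p _ => h p⟩
    refine ⟨(ext0 ((hc.biUnion fun t _ => (F t).countable_toSet).image Prod.snd)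
      fun i => z.1 (n, i) - 1, n), fun t ht => hF t ht _ fun p hp => ?_⟩
    by_cases h : p.1 = n
    · subst h
      simp only [e, if_true, ext0]
      rw [indicator_of_mem (mem_image_of_mem _ (mem_biUnion ht hp)), sub_add_cancel]
    · simp [e, h, hn p h]
  have hc : Continuous e := by
    refine Continuous.subtype_mk (continuous_pi fun p => continuous_prod_of_discrete_right.2
      fun n => ?_) _
    by_cases h : p.1 = n
    · simp only [h, if_true]
      exact (continuous_of_discreteTopology (f := fun z : ZMod 2 => z + 1)).comp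
        ((continuous_apply _).comp continuous_subtype_val)
    · simp only [h, if_false]; fun_prop
  have hi : IsInducing e := by
    refine isInducing_iff_nhds.2 fun g => le_antisymm (hc.tendsto g).le_comap ?_
    have h1 : ∀ p, ∀ᶠ q in comap e (𝓝 (e g)), (e q).1 p = (e g).1 p := fun p => by
      simpa using tendsto_pi_nhds.1 (tendsto_subtype_rng.1 (tendsto_comap (f := e))) p
    obtain ⟨i, hi⟩ := exists_zero g.1
    have h2 : ∀ᶠ q in comap e (𝓝 (e g)), g.2 = q.2 := by
      filter_upwards [h1 (g.2, i)] with q hq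
      by_contra h
      simp [e, h, hi] at hq
    refine Tendsto.prodMk_nhds (mx := Prod.fst) (my := Prod.snd) (tend.2 fun j => ?_)
      (Tendsto.congr' (f₁ := fun _ => g.2) h2 tendsto_const_nhds)
    filter_upwards [h1 (g.2, j), h2] with q h3 h4
    simpa [e, ← h4] using h3
  exact ⟨K, inferInstance, isCompact_iff_compactSpace.1 hK.isCompact, inferInstance, e,
    ⟨⟨hi, dense_iff_inter_open.2 fun U hU h => (hG U hU.isGδ h).imp' e fun g hg =>
      ⟨hg, g, rfl⟩⟩, hi.injective⟩, hG⟩

lemma notpre : ¬ ∀ U ∈ 𝓝 (0 : Sig I × ℤ), ∃ F : Set (Sig I × ℤ), F.Finite ∧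
    ∀ g, ∃ f ∈ F, ∃ u ∈ U, f + u = g := fun h => by
  obtain ⟨F, hF, hF'⟩ := h {g | g.2 = 0}
    ((isOpen_discrete {0}).preimage continuous_snd |>.mem_nhds rfl)
  refine infinite_univ ((hF.image Prod.snd).subset fun n _ => ?_)
  obtain ⟨f, hf, u, hu, h⟩ := hF' (0, n)
  exact ⟨f, hf, by simpa [hu.out] using congrArg Prod.snd h⟩

end Pool.Agent.H.MP_f1805c_gt
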